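import Mathlib
import Pool.Agent.W560.HP.Stm

/-! Project HP (helper560, MP_87f965_ag), part SPEC: specialisation of a node to zero. -/

set_option autoImplicit false

namespace W959.HP

open Finset Polynomial W560.HP
open W560.Sep (dt dt_map)

theorem opt_ind {k A M ι : Type} [Field k] [Field A] [Algebra k A] [Field M] [Algebra k M]
    (z : ι → A) (hz : AlgebraicIndependent k z) (φ : A →ₐ[k] M) (ε : M)
    (h : ∀ p : A[X], p ≠ 0 → (p.map (φ : A →+* M)).eval ε ≠ 0) :
    AlgebraicIndependent k (fun o : Option ι => o.elim ε (fun i => φ (z i))) := by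
  have hinj : Function.Injective φ := φ.toRingHom.injective
  have h1 : AlgebraicIndependent k (fun i => φ (z i)) := hz.map' (f := φ) hinj
  rw [h1.option_iff_transcendental]
  have hle : Algebra.adjoin k (Set.range fun i => φ (z i)) ≤ φ.range := by
    rw [Algebra.adjoin_le_iff]
    rintro _ ⟨i, rfl⟩
    exact ⟨z i, rfl⟩
  let ψ : Algebra.adjoin k (Set.range fun i => φ (z i)) →ₐ[k] A :=
    ((AlgEquiv.ofInjective φ hinj).symm : φ.range →ₐ[k] A).comp (Subalgebra.inclusion hle)
  have hψ : ∀ x, φ (ψ x) = (x : M) := by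
    intro x
    have := (AlgEquiv.ofInjective φ hinj).apply_symm_apply (Subalgebra.inclusion hle x)
    exact congrArg Subtype.val this
  have hψi : Function.Injective (ψ : Algebra.adjoin k (Set.range fun i => φ (z i)) →+* A) := by
    intro x y hxy
    apply Subtype.ext
    rw [← hψ x, ← hψ y]
    exact congrArg φ hxy
  rw [transcendental_iff]
  intro p hp
  by_contra hp0
  have h3 : p.map (ψ : Algebra.adjoin k (Set.range fun i => φ (z i)) →+* A) ≠ 0 := by
    rwa [Ne, Polynomial.map_eq_zero_iff hψi]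
  apply h _ h3
  rw [Polynomial.map_map]
  rw [← hp, Polynomial.aeval_def, Polynomial.eval_map]
  congr 1
  ext x
  exact hψ x

theorem g_map {A B : Type*} [CommRing A] [CommRing B] (φ : A →+* B) (m : ℕ) (r : ℕ → A)
    (s : ℕ → B) (h : ∀ j, φ (r j) = s j) (j l : ℕ) :
    φ ((g m r j).coeff l) = (g m s j).coeff l := by
  rw [← Polynomial.coeff_map]
  congr 1
  simp [g, h]

/-- rows of the system -/
noncomputable def fr {A : Type*} [CommRing A] (m i b : ℕ) (r : ℕ → A) (l j : ℕ) : A :=
  if l < m then (g m r j).coeff l else if l = m then (if j = i then 1 else 0)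
    else (if j = b then 1 else 0)

theorem fr_map {A B : Type*} [CommRing A] [CommRing B] (φ : A →+* B) (m i b : ℕ) (r : ℕ → A)
    (s : ℕ → B) (h : ∀ j, φ (r j) = s j) (l j : ℕ) :
    φ (fr m i b r l j) = fr m i b s l j := by
  unfold fr
  split_ifs
  · exact g_map φ m r s h j l
  all_goals simp

/-- right hand side -/
def rh {A : Type*} [CommRing A] (m : ℕ) (T v : A) (l : ℕ) : A :=
  if l < m then 0 else if l = m then T else v

theorem rh_map {A B : Type*} [CommRing A] [CommRing B] (φ : A →+* B) (m : ℕ) (T v : A) (l : ℕ) :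
    φ (rh m T v l) = rh m (φ T) (φ v) l := by
  unfold rh
  split_ifs <;> simp

theorem sol_iff {A : Type*} [CommRing A] (m i b : ℕ) (hi : i < m + 2) (hb : b < m + 2)
    (r w : ℕ → A) (hc : ∀ l < m, ∑ j ∈ range (m + 2), (g m r j).coeff l * w j = 0) (l : ℕ) :
    ∑ j ∈ range (m + 2), fr m i b r l j * w j = rh m (w i) (w b) l := by
  unfold fr rh
  split_ifs with h1 h2
  · exact hc l h1
  · simp [hi]
  · simp [hb]

/-- uniqueness of solutions -/
theorem sol_unique {K : Type*} [Field K] (m i b : ℕ) (r : ℕ → K)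
    (hd : dt (m + 2) (fr m i b r) ≠ 0) (w w' : ℕ → K)
    (h : ∀ l < m + 2, ∑ j ∈ range (m + 2), fr m i b r l j * w j
      = ∑ j ∈ range (m + 2), fr m i b r l j * w' j) : ∀ j < m + 2, w j = w' j := by
  intro j hj
  have := W560.Sep.eq_zero_of_dt (m + 2) (fr m i b r) hd (fun j => w j - w' j) (by
    intro l hl
    simp only [mul_sub, Finset.sum_sub_distrib]
    rw [h l hl, sub_self]) j hj
  exact sub_eq_zero.1 this

/-- the determinant does not vanish if the solution space is zero -/
theorem dt_ne_zero {K : Type*} [Field K] (m i b : ℕ) (hi : i < m + 2) (hb : b < m + 2)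
    (r : ℕ → K)
    (h : ∀ t : ℕ → K, (∀ l < m, ∑ j ∈ range (m + 2), (g m r j).coeff l * t j = 0) → t i = 0 →
      t b = 0 → ∀ j ≤ m + 1, t j = 0) :
    dt (m + 2) (fr m i b r) ≠ 0 := by
  intro hd
  unfold dt at hd
  obtain ⟨v, hv0, hv⟩ := Matrix.exists_mulVec_eq_zero_iff.2 hd
  apply hv0
  let t : ℕ → K := fun j => if hj : j < m + 2 then v ⟨j, hj⟩ else 0
  have ht : ∀ j : Fin (m + 2), t j = v j := fun j => dif_pos j.2
  have hrow : ∀ l < m + 2, ∑ j ∈ range (m + 2), fr m i b r l j * t j = 0 := by
    intro l hl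
    have := congrFun hv ⟨l, hl⟩
    rw [Matrix.mulVec, dotProduct] at this
    rw [← Fin.sum_univ_eq_sum_range (fun j => fr m i b r l j * t j)]
    simpa [ht] using this
  have h1 : ∀ l < m, ∑ j ∈ range (m + 2), (g m r j).coeff l * t j = 0 := by
    intro l hl
    have := hrow l (by omega)
    unfold fr at this
    simpa [hl] using this
  have h2 : t i = 0 := by
    have := hrow m (by omega)
    unfold fr at this
    simpa [hi] using this
  have h3 : t b = 0 := by
    have := hrow (m + 1) (by omega)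
    unfold fr at this
    simpa [hb] using this
  ext j
  rw [← ht j]
  exact h t h1 h2 h3 j (by omega)

theorem inO {k M Q : Type} [Field k] [Field M] [Algebra k M] [Field Q] [Algebra k Q]
    (O : Subalgebra k M) (π : O →ₐ[k] Q) (hinv : ∀ x : O, π x ≠ 0 → (x : M)⁻¹ ∈ O)
    (m i b : ℕ) (rO : ℕ → O) (TO vO : O) (ω : ℕ → M)
    (hd : dt (m + 2) (fr m i b (fun j => π (rO j))) ≠ 0)
    (hω : ∀ l < m + 2, ∑ j ∈ range (m + 2), fr m i b (fun j => (rO j : M)) l j * ω j
      = rh m (TO : M) (vO : M) l)
    (u : ℕ → Q)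
    (hu : ∀ l < m + 2, ∑ j ∈ range (m + 2), fr m i b (fun j => π (rO j)) l j * u j
      = rh m (π TO) (π vO) l) :
    ∀ j < m + 2, ∃ h : ω j ∈ O, π ⟨ω j, h⟩ = u j := by
  have hπD : π (dt (m + 2) (fr m i b rO)) = dt (m + 2) (fr m i b (fun j => π (rO j))) := by
    have := dt_map (π : O →+* Q) (m + 2) (fr m i b rO)
    refine this.trans ?_
    congr 1
    funext l j
    exact fr_map (π : O →+* Q) m i b rO _ (fun _ => rfl) l j
  have hπD0 : π (dt (m + 2) (fr m i b rO)) ≠ 0 := by rwa [hπD]
  have hD0 : dt (m + 2) (fr m i b rO) ≠ 0 := by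
    intro h
    apply hπD0
    rw [h, map_zero]
  have hunit : IsUnit (dt (m + 2) (fr m i b rO)) := by
    refine IsUnit.of_mul_eq_one ⟨_, hinv _ hπD0⟩ ?_
    apply Subtype.ext
    have : ((dt (m + 2) (fr m i b rO) : O) : M) ≠ 0 := by
      intro h
      exact hD0 (Subtype.ext h)
    simp [this]
  have hMD : dt (m + 2) (fr m i b (fun j => (rO j : M))) ≠ 0 := by
    have := dt_map (O.val : O →+* M) (m + 2) (fr m i b rO)
    have h2 : dt (m + 2) (fr m i b (fun j => (rO j : M))) = ((dt (m + 2) (fr m i b rO) : O) : M) := by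
      refine Eq.trans ?_ this.symm
      congr 1
      funext l j
      exact (fr_map (O.val : O →+* M) m i b rO _ (fun _ => rfl) l j).symm
    rw [h2]
    intro h
    exact hD0 (Subtype.ext h)
  let A : Matrix (Fin (m + 2)) (Fin (m + 2)) O := Matrix.of fun (l j : Fin (m + 2)) =>
    fr m i b rO l j
  have hA : IsUnit A.det := hunit
  let ωO : Fin (m + 2) → O := A⁻¹.mulVec (fun l => rh m TO vO l)
  have hAω : A.mulVec ωO = fun l : Fin (m + 2) => rh m TO vO l := by
    rw [Matrix.mulVec_mulVec, Matrix.mul_nonsing_inv _ hA, Matrix.one_mulVec]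
  let t : ℕ → O := fun j => if h : j < m + 2 then ωO ⟨j, h⟩ else 0
  have ht : ∀ j : Fin (m + 2), t j = ωO j := fun j => dif_pos j.2
  have hrow : ∀ l < m + 2, ∑ j ∈ range (m + 2), fr m i b rO l j * t j = rh m TO vO l := by
    intro l hl
    have := congrFun hAω ⟨l, hl⟩
    rw [Matrix.mulVec, dotProduct] at this
    rw [← Fin.sum_univ_eq_sum_range (fun j => fr m i b rO l j * t j)]
    simpa [ht, A] using this
  have hM : ∀ l < m + 2, ∑ j ∈ range (m + 2), fr m i b (fun j => (rO j : M)) l j * (t j : M)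
      = rh m (TO : M) (vO : M) l := by
    intro l hl
    have := congrArg (O.val : O →+* M) (hrow l hl)
    rw [map_sum, rh_map] at this
    refine Eq.trans ?_ this
    refine Finset.sum_congr rfl fun j _ => ?_
    rw [map_mul, fr_map (O.val : O →+* M) m i b rO (fun j => (rO j : M)) (fun _ => rfl)]
    rfl
  have hQ : ∀ l < m + 2, ∑ j ∈ range (m + 2), fr m i b (fun j => π (rO j)) l j * π (t j)
      = rh m (π TO) (π vO) l := by
    intro l hl
    have := congrArg (π : O →+* Q) (hrow l hl)
    rw [map_sum, rh_map] at this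
    refine Eq.trans ?_ this
    refine Finset.sum_congr rfl fun j _ => ?_
    rw [map_mul, fr_map (π : O →+* Q) m i b rO (fun j => π (rO j)) (fun _ => rfl)]
    rfl
  have e1 := sol_unique m i b _ hMD ω (fun j => (t j : M)) (fun l hl => (hω l hl).trans (hM l hl).symm)
  have e2 := sol_unique m i b _ hd (fun j => π (t j)) u (fun l hl => (hQ l hl).trans (hu l hl).symm)
  intro j hj
  refine ⟨by rw [e1 j hj]; exact (t j).2, ?_⟩
  rw [← e2 j hj]
  congr 1
  exact Subtype.ext (e1 j hj)

theorem spec (hB : S_BRK) (hZ : S_SPZ) (hU : S_LAU) (hF : S_LIFT) : S_SPEC := by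
  intro k F _ _ _ _ m r w hm hG i
  obtain ⟨E, _, _, rE, v, hri, hvi, hr0, hcon, hind, huniq, hind2⟩ := hB k m i hm (by omega)
  obtain ⟨M, _, _, κ, ε, O, π, hκ, ⟨hεO, hε⟩, hinv, hcl, htr⟩ := hZ k (FractionRing E[X])
  obtain ⟨b, hb, hbi⟩ : ∃ b ≤ m + 1, b ≠ (i : ℕ) := by
    by_cases h : (i : ℕ) = 0
    · exact ⟨1, by omega, by omega⟩
    · exact ⟨0, by omega, by omega⟩
  let ιE : E →ₐ[k] FractionRing E[X] :=
    (IsScalarTower.toAlgHom k E[X] (FractionRing E[X])).comp (Polynomial.CAlgHom : E →ₐ[k] E[X])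
  have hιE : ∀ x, ιE x = algebraMap E[X] (FractionRing E[X]) (C x) := fun x => rfl
  let T : FractionRing E[X] := algebraMap E[X] (FractionRing E[X]) X
  have htrE : ∀ p : E[X], p ≠ 0 → (p.map (ιE : E →+* FractionRing E[X])).eval T ≠ 0 := by
    intro p hp
    have h1 : (p.map (ιE : E →+* FractionRing E[X])).eval T = algebraMap E[X] (FractionRing E[X]) p := by
      have h2 : (ιE : E →+* FractionRing E[X]) = (algebraMap E[X] (FractionRing E[X])).comp C := rfl
      rw [Polynomial.eval_map, h2, ← Polynomial.hom_eval₂, Polynomial.eval₂_C_X]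
    rw [h1]
    simpa using hp
  have hz0 := hind2 b hb hbi
  have hz1 := opt_ind _ hz0 ιE T htrE
  have hz2 := opt_ind _ hz1 κ ε htr
  let y : Fin (m + 2) ⊕ Fin 2 → M :=
    Sum.elim (fun j : Fin (m + 2) => if j = i then ε else κ (ιE (rE j))) ![κ T, κ (ιE (v b))]
  let f : Fin (m + 2) ⊕ Fin 2 → Option (Option (Option {j : Fin (m + 2) // (j : ℕ) ≠ i})) :=
    Sum.elim (fun j : Fin (m + 2) => if h : (j : ℕ) = i then none else some (some (some ⟨j, h⟩)))
      ![some none, some (some none)]
  have hf : Function.Injective f := by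
    rintro (a | a) (c | c) h
    · by_cases ha : (a : ℕ) = i <;> by_cases hc : (c : ℕ) = i
      · congr 1; exact Fin.ext (ha.trans hc.symm)
      · simp [f, ha, hc] at h
      · simp [f, ha, hc] at h
      · simp [f, ha, hc] at h
        congr 1
    · by_cases ha : (a : ℕ) = i <;> fin_cases c <;> simp [f, ha] at h
    · by_cases hc : (c : ℕ) = i <;> fin_cases a <;> simp [f, hc] at h
    · fin_cases a <;> fin_cases c <;> simp [f] at h ⊢
  have hy : AlgebraicIndependent k y := by
    have := hz2.comp f hf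
    convert this using 1
    funext s
    rcases s with a | a
    · by_cases ha : a = i
      · subst ha; simp [y, f]
      · have ha' : (a : ℕ) ≠ i := fun h => ha (Fin.ext h)
        simp [y, f, ha, ha']
    · fin_cases a <;> simp [y, f]
  obtain ⟨Ψ, hΨ⟩ := hF k F M _ (Sum.elim (fun j : Fin (m + 2) => r j) ![w i, w b]) y
    (hG.ind i (by omega) b hb (Ne.symm hbi)) hy (hG.gen i (by omega) b hb (Ne.symm hbi))
  have hΨi : Ψ (w i) = κ T := by simpa [y] using hΨ (Sum.inr 0)
  have hΨb : Ψ (w b) = κ (ιE (v b)) := by simpa [y] using hΨ (Sum.inr 1)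
  let rO : ℕ → O := fun j => if j = i then ⟨ε, hεO⟩ else ⟨κ (ιE (rE j)), (hκ _).1⟩
  have hrO : ∀ j, Ψ (r j) = (rO j : M) := by
    intro j
    by_cases hj : j < m + 2
    · have := hΨ (Sum.inl ⟨j, hj⟩)
      by_cases hji : j = i
      · have h2 : (⟨j, hj⟩ : Fin (m + 2)) = i := Fin.ext hji
        simpa [y, rO, hji, h2] using this
      · have h2 : (⟨j, hj⟩ : Fin (m + 2)) ≠ i := fun h => hji (congrArg Fin.val h)
        simpa [y, rO, hji, h2] using this
    · have hji : j ≠ i := by omega
      simp only [rO, hji, if_false]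
      rw [hG.r0 j (by omega), hr0 j (by omega)]
      simp
  have hrQ : ∀ j, π (rO j) = ιE (rE j) := by
    intro j
    by_cases hji : j = i
    · simp only [rO, hji, if_true]
      rw [hε, hri, map_zero]
    · simp only [rO, hji, if_false]
      exact (hκ _).2
  have hdE : dt (m + 2) (fr m i b rE) ≠ 0 :=
    dt_ne_zero m i b (by omega) (by omega) rE (huniq b hb hbi)
  have hrQ' : (fun j => π (rO j)) = fun j => ιE (rE j) := funext hrQ
  have hdQ : dt (m + 2) (fr m i b (fun j => π (rO j))) ≠ 0 := by
    have h1 := dt_map (ιE : E →+* FractionRing E[X]) (m + 2) (fr m i b rE)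
    have h2 : dt (m + 2) (fr m i b (fun j => π (rO j))) = ιE (dt (m + 2) (fr m i b rE)) := by
      refine Eq.trans ?_ h1.symm
      congr 1
      funext l j
      rw [hrQ']
      exact (fr_map (ιE : E →+* FractionRing E[X]) m i b rE _ (fun _ => rfl) l j).symm
    rw [h2]
    intro h
    exact hdE ((map_eq_zero ιE).1 h)
  have key := inO O π hinv m i b rO ⟨κ T, (hκ _).1⟩ ⟨κ (ιE (v b)), (hκ _).1⟩ (fun j => Ψ (w j)) hdQ
    (by
      intro l _
      have h1 := sol_iff m i b (by omega) (by omega) (fun j => (rO j : M)) (fun j => Ψ (w j)) (by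
        intro l hl
        have := congrArg Ψ (hG.con l hl)
        rw [map_sum, map_zero] at this
        refine Eq.trans ?_ this
        refine Finset.sum_congr rfl fun j _ => ?_
        rw [map_mul]
        congr 1
        exact (g_map (Ψ : F →+* M) m r (fun j => (rO j : M)) hrO j l).symm) l
      rw [h1, hΨi, hΨb])
    (fun j => if j = i then T else ιE (v j))
    (by
      intro l _
      have h1 := sol_iff m i b (by omega) (by omega) (fun j => π (rO j))
        (fun j => if j = i then T else ιE (v j)) (by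
        intro l hl
        have := congrArg ιE (hcon l hl)
        rw [map_sum, map_zero] at this
        refine Eq.trans ?_ this
        refine Finset.sum_congr rfl fun j _ => ?_
        have h3 : ιE ((g m rE j).coeff l) = (g m (fun j => ιE (rE j)) j).coeff l :=
          g_map (ιE : E →+* FractionRing E[X]) m rE _ (fun _ => rfl) j l
        rw [map_mul, hrQ', h3]
        by_cases hji : j = i
        · subst hji
          have h0 : (g m (fun j => ιE (rE j)) i).coeff l = 0 := by
            unfold g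
            have h4 : ιE (rE i) = 0 := by rw [hri, map_zero]
            simp only [h4, C_0, add_zero]
            rw [Polynomial.coeff_X_pow_mul']
            simp [hl]
          rw [h0, zero_mul, zero_mul]
        · simp [hji]) l
      rw [h1]
      simp only [if_true, hbi, if_false]
      rw [(hκ _).2, (hκ _).2])
  refine hU k F (Fin (m + 2)) (fun j => w j) i E (fun j => v j) ?_ M O π Ψ hcl ?_ ?_
  · have := hind.comp (fun j : {j : Fin (m + 2) // j ≠ i} =>
      (⟨j.1, fun h => j.2 (Fin.ext h)⟩ : {j : Fin (m + 2) // (j : ℕ) ≠ i})) (by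
        intro a c h
        apply Subtype.ext
        exact congrArg (fun x => x.1) h)
    exact this
  · intro j hji
    obtain ⟨h, h'⟩ := key j (by omega)
    refine ⟨h, h'.trans ?_⟩
    have : (j : ℕ) ≠ i := fun h => hji (Fin.ext h)
    simp only [this, if_false]
    rfl
  · obtain ⟨h, h'⟩ := key i (by omega)
    refine ⟨h, h'.trans ?_⟩
    simp only [if_true]
    rfl

end W959.HP
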